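import Mathlib

set_option autoImplicit false

namespace Pool.Agent.H22.OVH.BlockBranching

/-! ### Orthogonal Vectors -/

/-- Positions of the `2n` input vectors: `(false, i)` is the `i`-th vector of `A`, and
`(true, j)` is the `j`-th vector of `B`. -/
abbrev Pos (n : ℕ) : Type := Bool × Fin n

/-- Vectors in `{0,1}^d`. -/
abbrev Vec (d : ℕ) : Type := Fin d → Bool

/-- An input: `n` vectors of `A` and `n` vectors of `B`, all in `{0,1}^d`. -/
abbrev Input (n d : ℕ) : Type := Pos n → Vec d

/-- Valid inputs: each of the two sets is listed in strictly increasing lexicographic order (so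
each consists of exactly `n` distinct vectors, written in the canonical order). -/
def IsValid {n d : ℕ} (x : Input n d) : Prop :=
  StrictMono (fun i : Fin n => toLex (x (false, i))) ∧
  StrictMono (fun j : Fin n => toLex (x (true, j)))

/-- The answer to the Orthogonal Vectors question: some vector of `A` and some vector of `B` have
inner product `0` over the integers. -/
def HasOrthogonalPair {n d : ℕ} (x : Input n d) : Prop :=
  ∃ i j : Fin n, ∑ k : Fin d, (x (false, i) k).toNat * (x (true, j) k).toNat = 0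

/-! ### Branching programs -/

/-- A branching program with `size` inner nodes. Every inner node looks at `k` whole input
vectors (at the positions `pos v 0, ..., pos v (k-1)`), evaluates an arbitrary `R`-valued function
of them, and moves, according to the value, to another inner node or to one of the two outputs.
Cycles are allowed. -/
structure Program (n d k R : ℕ) where
  /-- number of inner nodes -/
  size : ℕ
  /-- the positions of the vectors which are looked at -/
  pos : Fin size → Fin k → Pos n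
  /-- the function of these vectors which is evaluated -/
  query : Fin size → (Fin k → Vec d) → Fin R
  /-- the next node, or an output -/
  next : Fin size → Fin R → Fin size ⊕ Bool
  /-- the start node (or a constant output) -/
  start : Fin size ⊕ Bool

variable {n d k R : ℕ}

/-- The value which is computed at the node `v` on input `x`. -/
def Program.value (P : Program n d k R) (x : Input n d) (v : Fin P.size) : Fin R :=
  P.query v fun l => x (P.pos v l)

/-- One step of the computation on input `x`; outputs are final. -/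
def Program.step (P : Program n d k R) (x : Input n d) :
    Fin P.size ⊕ Bool → Fin P.size ⊕ Bool
  | Sum.inl v => P.next v (P.value x v)
  | Sum.inr b => Sum.inr b

/-- The program reaches the output `b` on input `x`. -/
def Program.Outputs (P : Program n d k R) (x : Input n d) (b : Bool) : Prop :=
  ∃ t : ℕ, (P.step x)^[t] P.start = Sum.inr b

/-- The program answers the Orthogonal Vectors question correctly on input `x`. -/
def Program.CorrectOn (P : Program n d k R) (x : Input n d) : Prop :=
  (HasOrthogonalPair x → P.Outputs x true) ∧ (¬ HasOrthogonalPair x → P.Outputs x false)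

/-! ### Restriction to one vector -/

theorem Program.iterate_step_inr (P : Program n d k R) (x : Input n d) (b : Bool) (t : ℕ) :
    (P.step x)^[t] (Sum.inr b) = Sum.inr b := by
  induction t with
  | zero => rfl
  | succ t ih => rw [Function.iterate_succ_apply']; rw [ih]; rfl

theorem Program.outputs_unique (P : Program n d k R) (x : Input n d) {b c : Bool}
    (hb : P.Outputs x b) (hc : P.Outputs x c) : b = c := by
  obtain ⟨t, ht⟩ := hb
  obtain ⟨u, hu⟩ := hc
  have h1 : (P.step x)^[u + t] P.start = Sum.inr b := by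
    rw [Function.iterate_add_apply, ht, P.iterate_step_inr]
  have h2 : (P.step x)^[u + t] P.start = Sum.inr c := by
    rw [add_comm, Function.iterate_add_apply, hu, P.iterate_step_inr]
  rw [h1] at h2
  exact Sum.inr.inj h2

/-- The node `v` looks at the position `p`. -/
def Program.Looks (P : Program n d k R) (p : Pos n) (v : Fin P.size) : Prop :=
  ∃ l, P.pos v l = p

/-- Nodes which look at position `p`. -/
abbrev Program.NodesAt (P : Program n d k R) (p : Pos n) : Type := {v : Fin P.size // P.Looks p v}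

open Classical in
/-- The step which stops at nodes looking at `p`. -/
noncomputable def Program.skipStep (P : Program n d k R) (p : Pos n) (x : Input n d) :
    Fin P.size ⊕ Bool → Fin P.size ⊕ Bool
  | Sum.inl v => if P.Looks p v then Sum.inl v else P.next v (P.value x v)
  | Sum.inr b => Sum.inr b

open Classical in
noncomputable def Program.toStop (P : Program n d k R) (p : Pos n) :
    Fin P.size ⊕ Bool → Option (P.NodesAt p ⊕ Bool)
  | Sum.inl v => if h : P.Looks p v then some (Sum.inl ⟨v, h⟩) else none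
  | Sum.inr b => some (Sum.inr b)

theorem Program.toStop_inj (P : Program n d k R) (p : Pos n) {z z' : Fin P.size ⊕ Bool}
    {σ : P.NodesAt p ⊕ Bool} (h : P.toStop p z = some σ) (h' : P.toStop p z' = some σ) :
    z = z' := by
  rcases z with v | b <;> rcases z' with v' | b'
  · by_cases hv : P.Looks p v <;> by_cases hv' : P.Looks p v'
    · simp only [Program.toStop, hv, hv', dif_pos] at h h'
      rw [← h'] at h
      simp at h
      rw [h]
    · simp [Program.toStop, hv'] at h'
    · simp [Program.toStop, hv] at h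
    · simp [Program.toStop, hv] at h
  · by_cases hv : P.Looks p v
    · simp only [Program.toStop, hv, dif_pos] at h h'
      rw [← h'] at h
      simp at h
    · simp [Program.toStop, hv] at h
  · by_cases hv' : P.Looks p v'
    · simp only [Program.toStop, hv', dif_pos] at h h'
      rw [← h'] at h
      simp at h
    · simp [Program.toStop, hv'] at h'
  · simp only [Program.toStop] at h h'
    rw [← h'] at h
    simpa using h

open Classical in
/-- Follow the computation until a node looking at `p` or an output is reached. -/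
noncomputable def Program.skip (P : Program n d k R) (p : Pos n) (x : Input n d)
    (w : Fin P.size ⊕ Bool) : Option (P.NodesAt p ⊕ Bool) :=
  if h : ∃ t, (P.toStop p ((P.skipStep p x)^[t] w)).isSome then
    P.toStop p ((P.skipStep p x)^[Nat.find h] w) else none

theorem Program.skipStep_congr (P : Program n d k R) (p : Pos n) {x y : Input n d}
    (h : ∀ q, q ≠ p → x q = y q) : P.skipStep p x = P.skipStep p y := by
  funext w
  rcases w with v | b
  · by_cases hv : P.Looks p v
    · simp [Program.skipStep, hv]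
    · have h1 : P.value x v = P.value y v := by
        unfold Program.value
        congr 1
        funext l
        exact h _ fun h2 => hv ⟨l, h2⟩
      simp [Program.skipStep, hv, h1]
  · rfl

theorem Program.iterate_step_eq (P : Program n d k R) (p : Pos n) (x : Input n d)
    (w : Fin P.size ⊕ Bool) (t : ℕ)
    (h : ∀ i < t, ¬ (P.toStop p ((P.skipStep p x)^[i] w)).isSome) :
    (P.step x)^[t] w = (P.skipStep p x)^[t] w := by
  induction t with
  | zero => rfl
  | succ t ih =>
    rw [Function.iterate_succ_apply', Function.iterate_succ_apply', ih (fun i hi => h i (by omega))]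
    have hk := h t (by omega)
    generalize (P.skipStep p x)^[t] w = z at hk
    rcases z with v | b
    · by_cases hv : P.Looks p v
      · simp [Program.toStop, hv] at hk
      · simp [Program.step, Program.skipStep, hv]
    · simp [Program.toStop] at hk

/-- The signature of the restriction of the program to the vector at position `p`. -/
noncomputable def Program.sig (P : Program n d k R) (p : Pos n) (x : Input n d) :
    Option (P.NodesAt p ⊕ Bool) × (P.NodesAt p → Fin R → Option (P.NodesAt p ⊕ Bool)) :=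
  (P.skip p x P.start, fun v r => P.skip p x (P.next v.1 r))

theorem Program.skip_spec (P : Program n d k R) (p : Pos n) (x : Input n d)
    (w : Fin P.size ⊕ Bool) {σ : P.NodesAt p ⊕ Bool} (h : P.skip p x w = some σ) :
    ∃ t, (P.step x)^[t] w = (P.skipStep p x)^[t] w ∧
      P.toStop p ((P.step x)^[t] w) = some σ := by
  classical
  unfold Program.skip at h
  split_ifs at h with hex
  have h1 := P.iterate_step_eq p x w (Nat.find hex) (fun i hi => Nat.find_min hex hi)
  exact ⟨_, h1, by rw [h1]; exact h⟩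

theorem Program.outputs_aux (P : Program n d k R) (p : Pos n) (x y : Input n d)
    (hp : ∀ v : P.NodesAt p, P.value x v.1 = P.value y v.1)
    (hnext : ∀ (v : P.NodesAt p) (r : Fin R),
      P.skip p x (P.next v.1 r) = P.skip p y (P.next v.1 r)) (b : Bool) :
    ∀ (t : ℕ) (w w' : Fin P.size ⊕ Bool), P.skip p x w = P.skip p y w' →
      (P.step x)^[t] w = Sum.inr b → ∃ t', (P.step y)^[t'] w' = Sum.inr b := by
  classical
  intro t
  induction t using Nat.strong_induction_on with
  | _ t ih =>
    intro w w' hww ht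
    have hex : ∃ s, (P.toStop p ((P.skipStep p x)^[s] w)).isSome := by
      by_contra hcon
      push Not at hcon
      have h1 := P.iterate_step_eq p x w t (fun i _ => hcon i)
      have h2 := hcon t
      rw [← h1, ht] at h2
      simp [Program.toStop] at h2
    have hkt : Nat.find hex ≤ t := by
      by_contra hcon
      rw [not_le] at hcon
      have h1 := P.iterate_step_eq p x w t (fun i hi => Nat.find_min hex (hi.trans hcon))
      have h2 := Nat.find_min hex hcon
      rw [← h1, ht] at h2
      simp [Program.toStop] at h2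
    have hgk := P.iterate_step_eq p x w (Nat.find hex) (fun i hi => Nat.find_min hex hi)
    obtain ⟨σ, hσ⟩ := Option.isSome_iff_exists.1 (Nat.find_spec hex)
    have hskip : P.skip p x w = some σ := by
      unfold Program.skip
      rw [dif_pos hex]
      exact hσ
    rw [hskip] at hww
    obtain ⟨k', hk1, hk2⟩ := P.skip_spec p y w' hww.symm
    set s := Nat.find hex with hs
    rw [← hgk] at hσ
    have hzz := P.toStop_inj p hσ hk2
    obtain ⟨u, rfl⟩ := Nat.exists_eq_add_of_le hkt
    rw [add_comm, Function.iterate_add_apply] at ht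
    rcases hz : (P.step x)^[s] w with v | c
    · -- a node looking at `p`
      rw [hz] at ht hzz hσ
      have hv : P.Looks p v := by
        by_contra hv
        simp [Program.toStop, hv] at hσ
      rcases u with _ | u
      · simp at ht
      · rw [Function.iterate_succ_apply] at ht
        have hstep : P.step x (Sum.inl v) = P.next v (P.value x v) := rfl
        rw [hstep] at ht
        obtain ⟨t', ht'⟩ := ih u (by omega) _ _ (hnext ⟨v, hv⟩ (P.value x v)) ht
        refine ⟨t' + (k' + 1), ?_⟩
        rw [Function.iterate_add_apply, Function.iterate_succ_apply', ← hzz]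
        have hstep' : P.step y (Sum.inl v) = P.next v (P.value y v) := rfl
        rw [hstep', ← hp ⟨v, hv⟩]
        exact ht'
    · rw [hz, P.iterate_step_inr] at ht
      rw [hz, ht] at hzz
      exact ⟨k', hzz.symm⟩

/-- Programs with equal signatures at `p` and equal values at the nodes looking at `p` have equal
outputs. -/
theorem Program.outputs_of_sig (P : Program n d k R) (p : Pos n) (x y : Input n d)
    (hp : ∀ v : P.NodesAt p, P.value x v.1 = P.value y v.1) (hsig : P.sig p x = P.sig p y)
    (b : Bool) (h : P.Outputs x b) : P.Outputs y b := by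
  obtain ⟨t, ht⟩ := h
  have h1 : P.skip p x P.start = P.skip p y P.start := (Prod.ext_iff.1 hsig).1
  have h2 := (Prod.ext_iff.1 hsig).2
  exact P.outputs_aux p x y hp (fun v r => congrFun (congrFun h2 v) r) b t _ _ h1 ht

theorem Program.sig_congr (P : Program n d k R) (p : Pos n) {x y : Input n d}
    (h : ∀ q, q ≠ p → x q = y q) : P.sig p x = P.sig p y := by
  unfold Program.sig Program.skip
  rw [P.skipStep_congr p h]

/-! ### The hard instances -/

/-- A strictly increasing list of `n ≤ 2^m` vectors of length `m`. -/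
theorem exists_code {n m : ℕ} (h : n ≤ 2 ^ m) :
    ∃ code : Fin n → Fin m → Bool, ∀ i j, i < j →
      ∃ c : Fin m, (∀ l < c, code i l = code j l) ∧ code i c = false ∧ code j c = true := by
  classical
  have hcard : Fintype.card (Lex (Fin m → Bool)) = 2 ^ m := by
    rw [Fintype.card_lex, Fintype.card_fun, Fintype.card_bool, Fintype.card_fin]
  let e : Fin (2 ^ m) ≃o Lex (Fin m → Bool) := Fintype.orderIsoFinOfCardEq _ hcard
  refine ⟨fun i => ofLex (e (Fin.castLE h i)), fun i j hij => ?_⟩
  have h1 := e.strictMono (show Fin.castLE h i < Fin.castLE h j from hij)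
  obtain ⟨k, hk1, hk2⟩ := h1
  refine ⟨k, hk1, ?_⟩
  have hk3 : (ofLex (e (Fin.castLE h i)) k : Bool) < ofLex (e (Fin.castLE h j)) k := hk2
  rw [Bool.lt_iff] at hk3
  exact hk3

/-- The vectors of `A` in the hard instances. -/
def vecA {n m w : ℕ} (d : ℕ) (code : Fin n → Fin m → Bool) (b : Fin n → Fin w → Bool)
    (j : Fin n) : Vec d := fun c =>
  if c.1 = m then true
  else if h : m + 1 ≤ c.1 ∧ c.1 < 2 * m + 1 then code j ⟨c.1 - (m + 1), by omega⟩
  else if h : 2 * m + 1 ≤ c.1 ∧ c.1 < 3 * m + 1 then !(code j ⟨c.1 - (2 * m + 1), by omega⟩)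
  else if h : 3 * m + 1 ≤ c.1 ∧ c.1 < 3 * m + 1 + w then !(b j ⟨c.1 - (3 * m + 1), by omega⟩)
  else false

/-- The vectors of `B` which meet all vectors of `A`. -/
def vecB {n m : ℕ} (d : ℕ) (code : Fin n → Fin m → Bool) (q : Fin n) : Vec d := fun c =>
  if h : c.1 < m then code q ⟨c.1, h⟩
  else if c.1 = m then true
  else false

/-- The special vector of `B`. -/
def vecS {n m : ℕ} (d : ℕ) (code : Fin n → Fin m → Bool) (i j : Fin n) (r : ℕ) : Vec d := fun c =>
  if h : c.1 < m then code i ⟨c.1, h⟩
  else if h : m + 1 ≤ c.1 ∧ c.1 < 2 * m + 1 then !(code j ⟨c.1 - (m + 1), by omega⟩)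
  else if h : 2 * m + 1 ≤ c.1 ∧ c.1 < 3 * m + 1 then code j ⟨c.1 - (2 * m + 1), by omega⟩
  else if c.1 = 3 * m + 1 + r then true
  else false

/-- The hard instances. -/
def hard {n m w : ℕ} (d : ℕ) (code : Fin n → Fin m → Bool) (i : Fin n) (b : Fin n → Fin w → Bool)
    (z : Fin n × Fin w) : Input n d := fun q =>
  if q.1 = false then vecA d code b q.2
  else if q.2 = i then vecS d code i z.1 z.2 else vecB d code q.2

theorem sum_toNat_eq_zero_iff {d : ℕ} (u v : Vec d) :
    ∑ k : Fin d, (u k).toNat * (v k).toNat = 0 ↔ ∀ k, ¬ (u k = true ∧ v k = true) := by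
  rw [Finset.sum_eq_zero_iff]
  constructor
  · intro h k ⟨h1, h2⟩
    have := h k (Finset.mem_univ k)
    simp [h1, h2] at this
  · intro h k _
    have := h k
    cases hu : u k <;> cases hv : v k <;> simp_all

section coords

variable {m w : ℕ}

theorem vecA_zero (code : Fin n → Fin m → Bool) (b : Fin n → Fin w → Bool) (j : Fin n)
    (c : Fin d) (h : c.1 < m) : vecA d code b j c = false := by
  have h1 : ¬ (c.1 = m) := by omega
  have h2 : ¬ (m + 1 ≤ c.1 ∧ c.1 < 2 * m + 1) := by omega
  have h3 : ¬ (2 * m + 1 ≤ c.1 ∧ c.1 < 3 * m + 1) := by omega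
  have h4 : ¬ (3 * m + 1 ≤ c.1 ∧ c.1 < 3 * m + 1 + w) := by omega
  unfold vecA
  rw [if_neg h1, dif_neg h2, dif_neg h3, dif_neg h4]

theorem vecA_one (code : Fin n → Fin m → Bool) (b : Fin n → Fin w → Bool) (j : Fin n)
    (c : Fin d) (h : c.1 = m) : vecA d code b j c = true := by
  unfold vecA
  rw [if_pos h]

theorem vecA_two (code : Fin n → Fin m → Bool) (b : Fin n → Fin w → Bool) (j : Fin n)
    (c : Fin d) (l : Fin m) (h : c.1 = m + 1 + l) : vecA d code b j c = code j l := by
  have h1 : ¬ (c.1 = m) := by omega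
  have h2 : m + 1 ≤ c.1 ∧ c.1 < 2 * m + 1 := by
    have := l.2
    omega
  unfold vecA
  rw [if_neg h1, dif_pos h2]
  congr 1
  ext
  simp only
  omega

theorem vecA_three (code : Fin n → Fin m → Bool) (b : Fin n → Fin w → Bool) (j : Fin n)
    (c : Fin d) (l : Fin m) (h : c.1 = 2 * m + 1 + l) : vecA d code b j c = !(code j l) := by
  have h1 : ¬ (c.1 = m) := by omega
  have h2 : ¬ (m + 1 ≤ c.1 ∧ c.1 < 2 * m + 1) := by omega
  have h3 : 2 * m + 1 ≤ c.1 ∧ c.1 < 3 * m + 1 := by
    have := l.2
    omega
  unfold vecA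
  rw [if_neg h1, dif_neg h2, dif_pos h3]
  congr 2
  ext
  simp only
  omega

theorem vecA_four (code : Fin n → Fin m → Bool) (b : Fin n → Fin w → Bool) (j : Fin n)
    (c : Fin d) (r : Fin w) (h : c.1 = 3 * m + 1 + r) : vecA d code b j c = !(b j r) := by
  have h1 : ¬ (c.1 = m) := by omega
  have h2 : ¬ (m + 1 ≤ c.1 ∧ c.1 < 2 * m + 1) := by omega
  have h3 : ¬ (2 * m + 1 ≤ c.1 ∧ c.1 < 3 * m + 1) := by omega
  have h4 : 3 * m + 1 ≤ c.1 ∧ c.1 < 3 * m + 1 + w := by
    have := r.2
    omega
  unfold vecA
  rw [if_neg h1, dif_neg h2, dif_neg h3, dif_pos h4]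
  congr 2
  ext
  simp only
  omega

theorem vecS_two (code : Fin n → Fin m → Bool) (i j : Fin n) (r : ℕ)
    (c : Fin d) (l : Fin m) (h : c.1 = m + 1 + l) : vecS d code i j r c = !(code j l) := by
  have h1 : ¬ (c.1 < m) := by omega
  have h2 : m + 1 ≤ c.1 ∧ c.1 < 2 * m + 1 := by
    have := l.2
    omega
  unfold vecS
  rw [dif_neg h1, dif_pos h2]
  congr 2
  ext
  simp only
  omega

theorem vecS_three (code : Fin n → Fin m → Bool) (i j : Fin n) (r : ℕ)
    (c : Fin d) (l : Fin m) (h : c.1 = 2 * m + 1 + l) : vecS d code i j r c = code j l := by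
  have h1 : ¬ (c.1 < m) := by omega
  have h2 : ¬ (m + 1 ≤ c.1 ∧ c.1 < 2 * m + 1) := by omega
  have h3 : 2 * m + 1 ≤ c.1 ∧ c.1 < 3 * m + 1 := by
    have := l.2
    omega
  unfold vecS
  rw [dif_neg h1, dif_neg h2, dif_pos h3]
  congr 1
  ext
  simp only
  omega

theorem vecS_four (code : Fin n → Fin m → Bool) (i j : Fin n) (r : ℕ)
    (c : Fin d) (h : c.1 = 3 * m + 1 + r) : vecS d code i j r c = true := by
  have h1 : ¬ (c.1 < m) := by omega
  have h2 : ¬ (m + 1 ≤ c.1 ∧ c.1 < 2 * m + 1) := by omega
  have h3 : ¬ (2 * m + 1 ≤ c.1 ∧ c.1 < 3 * m + 1) := by omega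
  unfold vecS
  rw [dif_neg h1, dif_neg h2, dif_neg h3, if_pos h]

theorem vecS_other (code : Fin n → Fin m → Bool) (i j : Fin n) (r : ℕ)
    (c : Fin d) (h0 : m ≤ c.1) (h1 : ¬ (m + 1 ≤ c.1 ∧ c.1 < 3 * m + 1))
    (h : c.1 ≠ 3 * m + 1 + r) : vecS d code i j r c = false := by
  have h2 : ¬ (c.1 < m) := by omega
  have h3 : ¬ (m + 1 ≤ c.1 ∧ c.1 < 2 * m + 1) := by omega
  have h4 : ¬ (2 * m + 1 ≤ c.1 ∧ c.1 < 3 * m + 1) := by omega
  unfold vecS
  rw [dif_neg h2, dif_neg h3, dif_neg h4, if_neg h]

end coords

theorem hard_valid {n m w d : ℕ} (hd : 3 * m + 1 + w ≤ d) (code : Fin n → Fin m → Bool)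
    (hcode : ∀ i j, i < j →
      ∃ c : Fin m, (∀ l < c, code i l = code j l) ∧ code i c = false ∧ code j c = true)
    (i : Fin n) (b : Fin n → Fin w → Bool) (z : Fin n × Fin w) :
    IsValid (hard d code i b z) := by
  constructor
  · intro p q hpq
    obtain ⟨k, hk1, hk2, hk3⟩ := hcode p q hpq
    refine ⟨⟨m + 1 + k.1, by omega⟩, ?_, ?_⟩
    · intro l hl
      have hl' : l.1 < m + 1 + k.1 := hl
      show vecA d code b p l = vecA d code b q l
      rcases lt_trichotomy l.1 m with h1 | h1 | h1
      · rw [vecA_zero code b p l h1, vecA_zero code b q l h1]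
      · rw [vecA_one code b p l h1, vecA_one code b q l h1]
      · have h2 : l.1 - (m + 1) < m := by
          have := k.2
          omega
        have h3 : l.1 = m + 1 + (⟨l.1 - (m + 1), h2⟩ : Fin m) := by
          simp only
          omega
        rw [vecA_two code b p l _ h3, vecA_two code b q l _ h3]
        apply hk1
        rw [Fin.lt_def]
        simp only
        omega
    · show vecA d code b p _ < vecA d code b q _
      rw [vecA_two code b p _ k rfl, vecA_two code b q _ k rfl, hk2, hk3]
      decide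
  · intro p q hpq
    obtain ⟨k, hk1, hk2, hk3⟩ := hcode p q hpq
    have hpre : ∀ (r : Fin n) (l : Fin d) (hl : l.1 < m),
        hard d code i b z (true, r) l = code r ⟨l.1, hl⟩ := by
      intro r l hl
      by_cases hr : r = i
      · subst hr
        simp [hard, vecS, hl]
      · simp [hard, hr, vecB, hl]
    refine ⟨⟨k.1, by omega⟩, ?_, ?_⟩
    · intro l hl
      have hl' : l.1 < k.1 := hl
      show hard d code i b z (true, p) l = hard d code i b z (true, q) l
      rw [hpre p l (by omega), hpre q l (by omega)]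
      exact hk1 _ (by rw [Fin.lt_def]; exact hl')
    · show hard d code i b z (true, p) _ < hard d code i b z (true, q) _
      rw [hpre p _ k.2, hpre q _ k.2]
      have h3 : (⟨k.1, k.2⟩ : Fin m) = k := rfl
      rw [h3, hk2, hk3]
      decide

theorem hard_hasOrthogonalPair {n m w d : ℕ} (hd : 3 * m + 1 + w ≤ d)
    (code : Fin n → Fin m → Bool)
    (hcode : ∀ i j, i < j →
      ∃ c : Fin m, (∀ l < c, code i l = code j l) ∧ code i c = false ∧ code j c = true)
    (i : Fin n) (b : Fin n → Fin w → Bool) (z : Fin n × Fin w) :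
    HasOrthogonalPair (hard d code i b z) ↔ b z.1 z.2 = true := by
  have hinj : ∀ p q, code p = code q → p = q := by
    intro p q hpq
    rcases lt_trichotomy p q with h | h | h
    · obtain ⟨k, _, h2, h3⟩ := hcode p q h
      rw [hpq, h3] at h2
      simp at h2
    · exact h
    · obtain ⟨k, _, h2, h3⟩ := hcode q p h
      rw [hpq, h2] at h3
      simp at h3
  unfold HasOrthogonalPair
  simp only [sum_toNat_eq_zero_iff]
  have hA : ∀ p, hard d code i b z (false, p) = vecA d code b p := fun p => by simp [hard]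
  have hS : hard d code i b z (true, i) = vecS d code i z.1 z.2 := by simp [hard]
  constructor
  · rintro ⟨p, q, hpq⟩
    have hq : q = i := by
      by_contra hq
      apply hpq ⟨m, by omega⟩
      constructor
      · rw [hA]
        exact vecA_one _ _ _ _ rfl
      · simp [hard, hq, vecB]
    subst hq
    rw [hA, hS] at hpq
    have hpj : p = z.1 := by
      apply hinj
      funext l
      have hl := l.2
      have h1 := hpq ⟨m + 1 + l.1, by omega⟩
      have h2 := hpq ⟨2 * m + 1 + l.1, by omega⟩
      rw [vecA_two code b p _ l rfl, vecS_two code q z.1 _ _ l rfl] at h1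
      rw [vecA_three code b p _ l rfl, vecS_three code q z.1 _ _ l rfl] at h2
      cases hc1 : code p l <;> cases hc2 : code z.1 l <;> simp_all
    have hz := z.2.2
    have h1 := hpq ⟨3 * m + 1 + z.2.1, by omega⟩
    rw [vecA_four code b p _ z.2 rfl, vecS_four code q z.1 _ _ rfl, hpj] at h1
    cases hb : b z.1 z.2
    · simp [hb] at h1
    · rfl
  · intro hb
    refine ⟨z.1, i, ?_⟩
    rw [hA, hS]
    rintro c ⟨h1, h2⟩
    rcases lt_trichotomy c.1 m with c0 | c0 | c0
    · rw [vecA_zero _ _ _ _ c0] at h1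
      simp at h1
    · rw [vecS_other code i z.1 _ c c0.ge (by omega) (by omega)] at h2
      simp at h2
    · by_cases c1 : c.1 < 2 * m + 1
      · have h3 : c.1 = m + 1 + (⟨c.1 - (m + 1), by omega⟩ : Fin m) := by
          simp only
          omega
        rw [vecA_two code b z.1 c _ h3] at h1
        rw [vecS_two code i z.1 _ c _ h3, h1] at h2
        simp at h2
      · by_cases c2 : c.1 < 3 * m + 1
        · have h3 : c.1 = 2 * m + 1 + (⟨c.1 - (2 * m + 1), by omega⟩ : Fin m) := by
            simp only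
            omega
          rw [vecA_three code b z.1 c _ h3] at h1
          rw [vecS_three code i z.1 _ c _ h3] at h2
          rw [h2] at h1
          simp at h1
        · by_cases c3 : c.1 = 3 * m + 1 + z.2.1
          · rw [vecA_four code b z.1 c z.2 c3, hb] at h1
            simp at h1
          · rw [vecS_other code i z.1 _ c c0.le (by omega) c3] at h2
            simp at h2

/-! ### Counting -/

open Classical in
/-- Hamming balls of radius `2N/5` are small. -/
theorem ball_card {T : Type} [Fintype T] (g : T → Bool) :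
    (Finset.univ.filter fun b : T → Bool =>
      5 * (Finset.univ.filter fun j => g j ≠ b j).card ≤ 2 * Fintype.card T).card ^ 5 ≤
      29 ^ Fintype.card T := by
  set N := Fintype.card T with hN
  set B := Finset.univ.filter fun b : T → Bool =>
      5 * (Finset.univ.filter fun j => g j ≠ b j).card ≤ 2 * N with hB
  have hsum : ∑ b : T → Bool, ∏ j, (if g j ≠ b j then (2 / 3 : ℝ) else 1) = (5 / 3) ^ N := by
    have h1 := Finset.prod_univ_sum (fun _ : T => (Finset.univ : Finset Bool))
      (fun j c => (if g j ≠ c then (2 / 3 : ℝ) else 1))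
    rw [Fintype.piFinset_univ] at h1
    rw [← h1]
    have h2 : ∀ j : T, ∑ c : Bool, (if g j ≠ c then (2 / 3 : ℝ) else 1) = 5 / 3 := by
      intro j
      cases g j <;> simp <;> norm_num
    rw [Finset.prod_congr rfl (fun j _ => h2 j), Finset.prod_const, Finset.card_univ]
  have hprod : ∀ b : T → Bool, ∏ j, (if g j ≠ b j then (2 / 3 : ℝ) else 1)
      = (2 / 3) ^ (Finset.univ.filter fun j => g j ≠ b j).card := by
    intro b
    rw [Finset.prod_ite, Finset.prod_const, Finset.prod_const, one_pow, mul_one]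
  let r := 2 * N / 5
  have hle : (B.card : ℝ) * (2 / 3) ^ r ≤ (5 / 3) ^ N := by
    rw [← hsum]
    calc (B.card : ℝ) * (2 / 3) ^ r = ∑ _b ∈ B, (2 / 3 : ℝ) ^ r := by
            rw [Finset.sum_const, nsmul_eq_mul]
      _ ≤ ∑ b ∈ B, ∏ j, (if g j ≠ b j then (2 / 3 : ℝ) else 1) := by
            apply Finset.sum_le_sum
            intro b hb
            rw [hprod b]
            have hb' : 5 * (Finset.univ.filter fun j => g j ≠ b j).card ≤ 2 * N := by
              simpa [hB] using hb
            apply pow_le_pow_of_le_one (by norm_num) (by norm_num)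
            omega
      _ ≤ ∑ b : T → Bool, ∏ j, (if g j ≠ b j then (2 / 3 : ℝ) else 1) := by
            apply Finset.sum_le_sum_of_subset_of_nonneg (Finset.subset_univ _)
            intro b _ _
            apply Finset.prod_nonneg
            intro j _
            split_ifs <;> norm_num
  have h5 : (B.card : ℝ) ^ 5 * (2 / 3) ^ (2 * N) ≤ (5 / 3) ^ (5 * N) := by
    have h6 : (2 / 3 : ℝ) ^ (2 * N) ≤ ((2 / 3) ^ r) ^ 5 := by
      rw [← pow_mul]
      apply pow_le_pow_of_le_one (by norm_num) (by norm_num)
      omega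
    calc (B.card : ℝ) ^ 5 * (2 / 3) ^ (2 * N) ≤ (B.card : ℝ) ^ 5 * ((2 / 3) ^ r) ^ 5 := by
            apply mul_le_mul_of_nonneg_left h6 (by positivity)
      _ = ((B.card : ℝ) * (2 / 3) ^ r) ^ 5 := by rw [mul_pow]
      _ ≤ ((5 / 3) ^ N) ^ 5 := by
            apply pow_le_pow_left₀ (by positivity) hle
      _ = (5 / 3) ^ (5 * N) := by rw [← pow_mul, mul_comm]
  have h7 : (B.card : ℝ) ^ 5 ≤ 29 ^ N := by
    have h8 : (B.card : ℝ) ^ 5 = ((B.card : ℝ) ^ 5 * (2 / 3) ^ (2 * N)) * (3 / 2) ^ (2 * N) := by
      rw [mul_assoc, ← mul_pow]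
      norm_num
    rw [h8]
    calc ((B.card : ℝ) ^ 5 * (2 / 3) ^ (2 * N)) * (3 / 2) ^ (2 * N)
        ≤ (5 / 3) ^ (5 * N) * (3 / 2) ^ (2 * N) := by
            apply mul_le_mul_of_nonneg_right h5 (by positivity)
      _ = ((5 / 3) ^ 5 * (3 / 2) ^ 2) ^ N := by rw [pow_mul, pow_mul, ← mul_pow]
      _ ≤ 29 ^ N := by
            apply pow_le_pow_left₀ (by norm_num)
            norm_num
  exact_mod_cast h7

/-- The free bits of the vectors of `A` which are looked at by the nodes looking at `p`. -/
def Program.dat {w : ℕ} (P : Program n d k R) (p : Pos n) (b : Fin n → Fin w → Bool) :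
    P.NodesAt p → Fin k → Fin w → Bool :=
  fun v l c => if (P.pos v.1 l).1 = false then b (P.pos v.1 l).2 c else false

theorem value_eq {m w : ℕ} (P : Program n d k R) (code : Fin n → Fin m → Bool) (i : Fin n)
    (p : Pos n) {b b' : Fin n → Fin w → Bool} (z : Fin n × Fin w) (h : P.dat p b = P.dat p b')
    (v : P.NodesAt p) : P.value (hard d code i b z) v.1 = P.value (hard d code i b' z) v.1 := by
  unfold Program.value
  congr 1
  funext l
  have h1 : ∀ c, P.dat p b v l c = P.dat p b' v l c := fun c => by rw [h]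
  unfold Program.dat at h1
  unfold hard
  by_cases h2 : (P.pos v.1 l).1 = false
  · rw [if_pos h2, if_pos h2]
    have h3 : b (P.pos v.1 l).2 = b' (P.pos v.1 l).2 := by
      funext c
      have := h1 c
      rwa [if_pos h2, if_pos h2] at this
    unfold vecA
    rw [h3]
  · rw [if_neg h2, if_neg h2]

open Classical in
theorem fiber_card {m w : ℕ} (P : Program n d k R) (code : Fin n → Fin m → Bool) (i : Fin n)
    (σ : (Option (P.NodesAt (true, i) ⊕ Bool) ×
      (P.NodesAt (true, i) → Fin R → Option (P.NodesAt (true, i) ⊕ Bool))) ×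
      (P.NodesAt (true, i) → Fin k → Fin w → Bool))
    (hcorrect : ∀ (b : Fin n → Fin w → Bool) (z : Fin n × Fin w),
      (HasOrthogonalPair (hard d code i b z) ↔ b z.1 z.2 = true)) :
    (Finset.univ.filter fun b : Fin n → Fin w → Bool =>
      5 * (Finset.univ.filter fun z => ¬ P.CorrectOn (hard d code i b z)).card ≤ 2 * (n * w) ∧
      ∀ z, (P.sig (true, i) (hard d code i b z), P.dat (true, i) b) = σ).card ^ 5 ≤
      29 ^ (n * w) := by
  set B := Finset.univ.filter fun b : Fin n → Fin w → Bool =>
      5 * (Finset.univ.filter fun z => ¬ P.CorrectOn (hard d code i b z)).card ≤ 2 * (n * w) ∧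
      ∀ z, (P.sig (true, i) (hard d code i b z), P.dat (true, i) b) = σ with hB
  have hcT : Fintype.card (Fin n × Fin w) = n * w := by simp
  rcases B.eq_empty_or_nonempty with hemp | ⟨b0, hb0⟩
  · rw [hemp]
    simp
  · have hb0' := (Finset.mem_filter.1 hb0).2
    let g : Fin n × Fin w → Bool := fun z => decide (P.Outputs (hard d code i b0 z) true)
    have hball := ball_card g
    rw [hcT] at hball
    refine le_trans (Nat.pow_le_pow_left ?_ 5) hball
    refine Finset.card_le_card_of_injOn (fun b z => b z.1 z.2) ?_ ?_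
    · intro b hb
      have hb' := (Finset.mem_filter.1 (Finset.mem_coe.1 hb)).2
      simp only [Finset.coe_filter, Finset.mem_univ, true_and, Set.mem_ofPred_eq]
      refine le_trans (Nat.mul_le_mul_left 5 (Finset.card_le_card ?_)) hb'.1
      intro z hz
      simp only [Finset.mem_filter, Finset.mem_univ, true_and] at hz ⊢
      intro hc
      apply hz
      have hsd : (P.sig (true, i) (hard d code i b z), P.dat (true, i) b) =
          (P.sig (true, i) (hard d code i b0 z), P.dat (true, i) b0) :=
        (hb'.2 z).trans (hb0'.2 z).symm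
      have hsame : ∀ c, P.Outputs (hard d code i b z) c → P.Outputs (hard d code i b0 z) c := by
        intro c h
        exact P.outputs_of_sig (true, i) _ _
          (value_eq P code i (true, i) z (Prod.ext_iff.1 hsd).2) (Prod.ext_iff.1 hsd).1 c h
      cases hbj : b z.1 z.2
      · have h1 : ¬ HasOrthogonalPair (hard d code i b z) := by
          rw [hcorrect, hbj]
          simp
        have h2 := hsame _ (hc.2 h1)
        have h3 : ¬ P.Outputs (hard d code i b0 z) true := by
          intro h4
          have := P.outputs_unique _ h2 h4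
          simp at this
        simp [g, h3]
      · have h1 : HasOrthogonalPair (hard d code i b z) := by
          rw [hcorrect, hbj]
        have h2 := hsame _ (hc.1 h1)
        simp [g, h2]
    · intro b _ b' _ h
      funext j c
      exact congrFun h (j, c)

theorem card_sig {w : ℕ} (P : Program n d k R) (p : Pos n) [Fintype (P.NodesAt p)] :
    Fintype.card ((Option (P.NodesAt p ⊕ Bool) ×
      (P.NodesAt p → Fin R → Option (P.NodesAt p ⊕ Bool))) ×
      (P.NodesAt p → Fin k → Fin w → Bool)) =
    (Fintype.card (P.NodesAt p) + 3) * ((Fintype.card (P.NodesAt p) + 3) ^ R) ^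
      Fintype.card (P.NodesAt p) * ((2 ^ w) ^ k) ^ Fintype.card (P.NodesAt p) := by
  classical
  simp [Fintype.card_prod, Fintype.card_option, Fintype.card_sum, add_assoc]

open Classical in
/-- The average-case lower bound for deterministic programs, in combinatorial form. -/
theorem deterministic_bound {m w : ℕ} (P : Program n d k R) (code : Fin n → Fin m → Bool)
    (hn : 1 ≤ n) (hw : 1 ≤ w)
    (hcorrect : ∀ (i : Fin n) (b : Fin n → Fin w → Bool) (z : Fin n × Fin w),
      (HasOrthogonalPair (hard d code i b z) ↔ b z.1 z.2 = true))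
    (herr : 3 * (Finset.univ.filter fun τ : Fin n × (Fin n → Fin w → Bool) × (Fin n × Fin w) =>
      ¬ P.CorrectOn (hard d code τ.1 τ.2.1 τ.2.2)).card ≤ n * (2 ^ (n * w) * (n * w))) :
    ∃ t : ℕ, t * n ≤ 9 * (k * P.size) ∧
      32 ^ (n * w) ≤ 16 ^ 5 * ((t + 3) * ((t + 3) ^ R) ^ t * ((2 ^ w) ^ k) ^ t) ^ 5 *
        29 ^ (n * w) := by
  set N := n * w with hN
  have hN1 : 1 ≤ N := Nat.mul_pos hn hw
  have hcT : Fintype.card (Fin n × Fin w) = N := by simp [hN]
  have hcX : Fintype.card (Fin n → Fin w → Bool) = 2 ^ N := by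
    simp only [Fintype.card_fun, Fintype.card_bool, Fintype.card_fin]
    rw [← pow_mul, hN, mul_comm]
  let E : Fin n → ℕ := fun i => (Finset.univ.filter fun τ :
      (Fin n → Fin w → Bool) × (Fin n × Fin w) => ¬ P.CorrectOn (hard d code i τ.1 τ.2)).card
  have hE : (Finset.univ.filter fun τ : Fin n × (Fin n → Fin w → Bool) × (Fin n × Fin w) =>
      ¬ P.CorrectOn (hard d code τ.1 τ.2.1 τ.2.2)).card = ∑ i, E i := by
    simp only [E, Finset.card_filter]
    rw [Fintype.sum_prod_type]
  rw [hE] at herr
  let G : Finset (Fin n) := Finset.univ.filter fun i => 8 * E i ≤ 3 * (2 ^ N * N)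
  have hG : n ≤ 9 * G.card := by
    have h1 : (Gᶜ).card * (3 * (2 ^ N * N)) ≤ 8 * ∑ i, E i := by
      calc (Gᶜ).card * (3 * (2 ^ N * N)) = ∑ _i ∈ Gᶜ, 3 * (2 ^ N * N) := by
            rw [Finset.sum_const, smul_eq_mul]
        _ ≤ ∑ i ∈ Gᶜ, 8 * E i := by
            apply Finset.sum_le_sum
            intro i hi
            simp only [G, Finset.mem_compl, Finset.mem_filter, Finset.mem_univ, true_and,
              not_le] at hi
            exact hi.le
        _ ≤ ∑ i, 8 * E i := Finset.sum_le_sum_of_subset (Finset.subset_univ _)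
        _ = 8 * ∑ i, E i := by rw [Finset.mul_sum]
    have h2 : (Gᶜ).card + G.card = n := by
      rw [Finset.card_compl_add_card, Fintype.card_fin]
    have h3 : 9 * (Gᶜ).card * (2 ^ N * N) ≤ 8 * n * (2 ^ N * N) := by
      calc 9 * (Gᶜ).card * (2 ^ N * N) = 3 * ((Gᶜ).card * (3 * (2 ^ N * N))) := by ring
        _ ≤ 3 * (8 * ∑ i, E i) := Nat.mul_le_mul_left 3 h1
        _ = 8 * (3 * ∑ i, E i) := by ring
        _ ≤ 8 * (n * (2 ^ N * N)) := Nat.mul_le_mul_left 8 herr
        _ = 8 * n * (2 ^ N * N) := by ring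
    have h4 : 9 * (Gᶜ).card ≤ 8 * n := Nat.le_of_mul_le_mul_right h3 (by positivity)
    omega
  have hsize : ∑ i : Fin n, Fintype.card (P.NodesAt (true, i)) ≤ k * P.size := by
    rw [← Fintype.card_sigma]
    have hcc : Fintype.card (Fin k × Fin P.size) = k * P.size := by simp
    rw [← hcc]
    apply Fintype.card_le_of_injective
      (fun a : (i : Fin n) × P.NodesAt (true, i) => (a.2.2.choose, a.2.1))
    rintro ⟨i, v, hv⟩ ⟨i', v', hv'⟩ h
    have h1 : hv.choose = hv'.choose := congrArg Prod.fst h
    have h2 : v = v' := congrArg Prod.snd h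
    subst h2
    have h3 := hv.choose_spec
    have h4 := hv'.choose_spec
    rw [h1, h4] at h3
    have h5 : i = i' := by simpa using h3.symm
    subst h5
    rfl
  obtain ⟨i, hiG, hi⟩ : ∃ i ∈ G, Fintype.card (P.NodesAt (true, i)) * n ≤
      9 * (k * P.size) := by
    by_contra hcon
    push Not at hcon
    have h1 : G.card * (9 * (k * P.size) + 1) ≤ (k * P.size) * n := by
      calc G.card * (9 * (k * P.size) + 1) = ∑ _i ∈ G, (9 * (k * P.size) + 1) := by
            rw [Finset.sum_const, smul_eq_mul]
        _ ≤ ∑ i ∈ G, Fintype.card (P.NodesAt (true, i)) * n :=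
            Finset.sum_le_sum fun i hi => hcon i hi
        _ ≤ ∑ i, Fintype.card (P.NodesAt (true, i)) * n :=
            Finset.sum_le_sum_of_subset (Finset.subset_univ _)
        _ = (∑ i, Fintype.card (P.NodesAt (true, i))) * n := by rw [Finset.sum_mul]
        _ ≤ (k * P.size) * n := Nat.mul_le_mul_right n hsize
    have h2 : n * (9 * (k * P.size) + 1) ≤ 9 * ((k * P.size) * n) := by
      calc n * (9 * (k * P.size) + 1) ≤ 9 * G.card * (9 * (k * P.size) + 1) :=
            Nat.mul_le_mul_right _ hG
        _ = 9 * (G.card * (9 * (k * P.size) + 1)) := by ring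
        _ ≤ 9 * ((k * P.size) * n) := Nat.mul_le_mul_left 9 h1
    nlinarith
  refine ⟨Fintype.card (P.NodesAt (true, i)), hi, ?_⟩
  -- good strings
  have hEi : 8 * E i ≤ 3 * (2 ^ N * N) := by simpa [G] using hiG
  let e : (Fin n → Fin w → Bool) → ℕ := fun b =>
    (Finset.univ.filter fun z => ¬ P.CorrectOn (hard d code i b z)).card
  have he : E i = ∑ b, e b := by
    simp only [E, e, Finset.card_filter]
    rw [Fintype.sum_prod_type]
  let Gb : Finset (Fin n → Fin w → Bool) := Finset.univ.filter fun b => 5 * e b ≤ 2 * N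
  have hGb : 2 ^ N ≤ 16 * Gb.card := by
    have h1 : (Gbᶜ).card * (2 * N) ≤ 5 * E i := by
      calc (Gbᶜ).card * (2 * N) = ∑ _b ∈ Gbᶜ, 2 * N := by
            rw [Finset.sum_const, smul_eq_mul]
        _ ≤ ∑ b ∈ Gbᶜ, 5 * e b := by
            apply Finset.sum_le_sum
            intro b hb
            simp only [Gb, Finset.mem_compl, Finset.mem_filter, Finset.mem_univ, true_and,
              not_le] at hb
            exact hb.le
        _ ≤ ∑ b, 5 * e b := Finset.sum_le_sum_of_subset (Finset.subset_univ _)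
        _ = 5 * E i := by rw [he, Finset.mul_sum]
    have h2 : (Gbᶜ).card + Gb.card = 2 ^ N := by
      rw [Finset.card_compl_add_card, hcX]
    have h3 : (16 * (Gbᶜ).card) * N ≤ (15 * 2 ^ N) * N := by
      calc (16 * (Gbᶜ).card) * N = 8 * ((Gbᶜ).card * (2 * N)) := by ring
        _ ≤ 8 * (5 * E i) := Nat.mul_le_mul_left 8 h1
        _ = 5 * (8 * E i) := by ring
        _ ≤ 5 * (3 * (2 ^ N * N)) := Nat.mul_le_mul_left 5 hEi
        _ = (15 * 2 ^ N) * N := by ring
    have h4 : 16 * (Gbᶜ).card ≤ 15 * 2 ^ N := Nat.le_of_mul_le_mul_right h3 (by omega)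
    omega
  -- split according to the signature
  let S : Type := (Option (P.NodesAt (true, i) ⊕ Bool) ×
      (P.NodesAt (true, i) → Fin R → Option (P.NodesAt (true, i) ⊕ Bool))) ×
      (P.NodesAt (true, i) → Fin k → Fin w → Bool)
  let fib : S → Finset (Fin n → Fin w → Bool) := fun σ =>
    Finset.univ.filter fun b : Fin n → Fin w → Bool =>
      5 * (Finset.univ.filter fun z => ¬ P.CorrectOn (hard d code i b z)).card ≤ 2 * (n * w) ∧
      ∀ z, (P.sig (true, i) (hard d code i b z), P.dat (true, i) b) = σ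
  have hfib : ∀ σ, (fib σ).card ^ 5 ≤ 29 ^ N := fun σ => fiber_card P code i σ (hcorrect i)
  have hcover : Gb ⊆ Finset.univ.biUnion fib := by
    intro b hb
    have hb' : 5 * e b ≤ 2 * N := by simpa [Gb] using hb
    rw [Finset.mem_biUnion]
    refine ⟨(P.sig (true, i) (hard d code i b (⟨0, by omega⟩, ⟨0, by omega⟩)),
      P.dat (true, i) b), Finset.mem_univ _, ?_⟩
    simp only [fib, Finset.mem_filter, Finset.mem_univ, true_and]
    refine ⟨hb', fun z => ?_⟩
    congr 1
    refine P.sig_congr _ ?_
    intro q hq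
    unfold hard
    split_ifs with h1 h2
    · rfl
    · exfalso
      apply hq
      ext1
      · simpa using h1
      · exact h2
    · rfl
  obtain ⟨D, hD1, hD2⟩ : ∃ D : ℕ, D ^ 5 ≤ 29 ^ N ∧ ∀ σ, (fib σ).card ≤ D := by
    obtain ⟨σ, _, hσ⟩ := Finset.exists_max_image (Finset.univ : Finset S)
      (fun σ => (fib σ).card) ⟨((none, fun _ _ => none), fun _ _ _ => false), Finset.mem_univ _⟩
    exact ⟨(fib σ).card, hfib σ, fun τ => hσ τ (Finset.mem_univ _)⟩
  have hGb2 : Gb.card ≤ Fintype.card S * D := by
    calc Gb.card ≤ (Finset.univ.biUnion fib).card := Finset.card_le_card hcover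
      _ ≤ Finset.univ.card * D := Finset.card_biUnion_le_card_mul _ _ _ fun σ _ => hD2 σ
      _ = Fintype.card S * D := by rw [Finset.card_univ]
  rw [← card_sig]
  have h32 : (32 : ℕ) ^ N = (2 ^ N) ^ 5 := by
    rw [show (32 : ℕ) = 2 ^ 5 by norm_num, ← pow_mul, ← pow_mul, mul_comm]
  calc 32 ^ N = (2 ^ N) ^ 5 := h32
    _ ≤ (16 * (Fintype.card S * D)) ^ 5 :=
        Nat.pow_le_pow_left (hGb.trans (Nat.mul_le_mul_left 16 hGb2)) 5
    _ = 16 ^ 5 * (Fintype.card S) ^ 5 * D ^ 5 := by ring
    _ ≤ 16 ^ 5 * (Fintype.card S) ^ 5 * 29 ^ N := Nat.mul_le_mul_left _ hD1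

/-! ### Averaging over the random choices -/

open Classical in
theorem exists_good_program (μ : PMF (Program n d k R)) {T : Type} [Fintype T]
    (x : T → Input n d)
    (hx : ∀ τ, (2 / 3 : ENNReal) ≤ μ.toOuterMeasure {P | P.CorrectOn (x τ)}) :
    ∃ P ∈ μ.support,
      3 * (Finset.univ.filter fun τ => ¬ P.CorrectOn (x τ)).card ≤ Fintype.card T := by
  by_contra hcon
  push Not at hcon
  have herr : ∀ τ, μ.toOuterMeasure {P | ¬ P.CorrectOn (x τ)} ≤ 1 / 3 := by
    intro τ
    have h1 : μ.toOuterMeasure {P | P.CorrectOn (x τ)} +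
        μ.toOuterMeasure {P | ¬ P.CorrectOn (x τ)} = 1 := by
      rw [PMF.toOuterMeasure_apply, PMF.toOuterMeasure_apply, ← ENNReal.tsum_add,
        ← PMF.tsum_coe μ]
      congr 1
      funext P
      by_cases h : P.CorrectOn (x τ) <;> simp [Set.indicator, h]
    have h2 : (2 / 3 : ENNReal) + μ.toOuterMeasure {P | ¬ P.CorrectOn (x τ)} ≤
        2 / 3 + 1 / 3 := by
      calc (2 / 3 : ENNReal) + μ.toOuterMeasure {P | ¬ P.CorrectOn (x τ)}
          ≤ μ.toOuterMeasure {P | P.CorrectOn (x τ)} +
            μ.toOuterMeasure {P | ¬ P.CorrectOn (x τ)} := by gcongr; exact hx τ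
        _ = 1 := h1
        _ = 2 / 3 + 1 / 3 := by
            rw [← ENNReal.add_div]
            norm_num
            rw [ENNReal.div_self (by norm_num) (by norm_num)]
    exact (ENNReal.add_le_add_iff_left (ENNReal.div_ne_top (by norm_num) (by norm_num))).1 h2
  have hlow : ((Fintype.card T : ENNReal) + 1) ≤
      ∑' P, μ P * (3 * ((Finset.univ.filter fun τ => ¬ P.CorrectOn (x τ)).card : ENNReal)) := by
    calc ((Fintype.card T : ENNReal) + 1) = ∑' P, μ P * ((Fintype.card T : ENNReal) + 1) := by
          rw [ENNReal.tsum_mul_right, PMF.tsum_coe, one_mul]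
      _ ≤ _ := by
          apply ENNReal.tsum_le_tsum
          intro P
          by_cases hP : μ P = 0
          · simp [hP]
          · have h1 := hcon P ((PMF.mem_support_iff μ P).2 hP)
            gcongr
            exact_mod_cast h1
  have hup : ∑' P, μ P * (3 * ((Finset.univ.filter fun τ => ¬ P.CorrectOn (x τ)).card : ENNReal))
      ≤ Fintype.card T := by
    have h1 : ∀ P : Program n d k R,
        μ P * (3 * ((Finset.univ.filter fun τ => ¬ P.CorrectOn (x τ)).card : ENNReal)) =
        3 * ∑ τ : T, {P | ¬ P.CorrectOn (x τ)}.indicator μ P := by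
      intro P
      rw [Finset.card_filter]
      push_cast
      rw [← mul_assoc, mul_comm (μ P) 3, mul_assoc, Finset.mul_sum]
      congr 1
      apply Finset.sum_congr rfl
      intro τ _
      by_cases h : P.CorrectOn (x τ) <;> simp [Set.indicator, h]
    calc ∑' P, μ P * (3 * ((Finset.univ.filter fun τ => ¬ P.CorrectOn (x τ)).card : ENNReal))
        = ∑' P, 3 * ∑ τ : T, {P | ¬ P.CorrectOn (x τ)}.indicator μ P := by
          congr 1
          funext P
          exact h1 P
      _ = 3 * ∑ τ : T, μ.toOuterMeasure {P | ¬ P.CorrectOn (x τ)} := by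
          rw [ENNReal.tsum_mul_left, Summable.tsum_finsetSum (fun _ _ => ENNReal.summable)]
          simp only [PMF.toOuterMeasure_apply]
      _ ≤ 3 * ∑ _τ : T, (1 / 3 : ENNReal) := by
          gcongr with τ _
          exact herr τ
      _ = Fintype.card T := by
          rw [Finset.sum_const, Finset.card_univ, nsmul_eq_mul, mul_comm, mul_assoc]
          rw [ENNReal.div_mul_cancel (by norm_num) (by norm_num), mul_one]
  have h3 := hlow.trans hup
  have h4 : (Fintype.card T + 1 : ℕ) ≤ Fintype.card T := by exact_mod_cast h3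
  omega

/-! ### Numerics -/

theorem numeric {n k R t s w : ℕ} (hn : 1000 ≤ n) (hk : 1 ≤ k) (hw : 1 ≤ w) (hnw : n ≤ 2 ^ w)
    (ht : t * n ≤ 9 * (k * s))
    (h : 32 ^ (n * w) ≤ 16 ^ 5 * ((t + 3) * ((t + 3) ^ R) ^ t * ((2 ^ w) ^ k) ^ t) ^ 5 *
      29 ^ (n * w)) :
    (1 / 10 ^ 6 : ℝ) * n ^ 2 / (k * (k + R)) ≤ s := by
  have hn' : (1000 : ℝ) ≤ n := by exact_mod_cast hn
  have hn0 : (0 : ℝ) < n := by linarith
  have hk' : (1 : ℝ) ≤ k := by exact_mod_cast hk
  have hR0 : (0 : ℝ) ≤ R := Nat.cast_nonneg R
  have hw' : (1 : ℝ) ≤ w := by exact_mod_cast hw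
  have ht0 : (0 : ℝ) ≤ t := Nat.cast_nonneg t
  have hlog2 : Real.log 2 < 0.6931471808 := Real.log_two_lt_d9
  have hlog2' : 0 < Real.log 2 := Real.log_pos (by norm_num)
  by_contra hcon
  rw [not_le] at hcon
  have hs : (s : ℝ) * (k * (k + R)) < 1 / 10 ^ 6 * n ^ 2 := by
    rwa [lt_div_iff₀ (by positivity)] at hcon
  have ht' : (t : ℝ) * n ≤ 9 * (k * s) := by exact_mod_cast ht
  have hsmall : (t : ℝ) * (k + R) < 9 / 10 ^ 6 * n := by
    have h1 : ((t : ℝ) * (k + R)) * n < (9 / 10 ^ 6 * n) * n := by
      calc ((t : ℝ) * (k + R)) * n = (t * n) * (k + R) := by ring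
        _ ≤ 9 * (k * s) * (k + R) := mul_le_mul_of_nonneg_right ht' (by positivity)
        _ = 9 * (s * (k * (k + R))) := by ring
        _ < 9 * (1 / 10 ^ 6 * n ^ 2) := by linarith
        _ = (9 / 10 ^ 6 * n) * n := by ring
    exact lt_of_mul_lt_mul_right h1 hn0.le
  have htn : (t : ℝ) + 3 ≤ n := by
    have h1 : (t : ℝ) ≤ t * (k + R) := by
      calc (t : ℝ) = t * 1 := by ring
        _ ≤ t * (k + R) := mul_le_mul_of_nonneg_left (by linarith) ht0
    linarith
  have hlogt : Real.log ((t : ℝ) + 3) ≤ w * Real.log 2 := by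
    rw [← Real.log_pow]
    refine Real.log_le_log (by linarith) (htn.trans ?_)
    exact_mod_cast hnw
  have hreal : (32 : ℝ) ^ (n * w) ≤ 16 ^ 5 * (((t : ℝ) + 3) * (((t : ℝ) + 3) ^ R) ^ t *
      ((2 ^ w) ^ k) ^ t) ^ 5 * 29 ^ (n * w) := by
    exact_mod_cast h
  have hlogs := Real.log_le_log (by positivity) hreal
  have hX : Real.log (((t : ℝ) + 3) * (((t : ℝ) + 3) ^ R) ^ t * ((2 ^ w) ^ k) ^ t) =
      Real.log (t + 3) + t * (R * Real.log (t + 3)) + t * (k * (w * Real.log 2)) := by
    rw [Real.log_mul (by positivity) (by positivity), Real.log_mul (by positivity) (by positivity),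
      Real.log_pow, Real.log_pow, Real.log_pow, Real.log_pow, Real.log_pow]
  rw [Real.log_mul (by positivity) (by positivity), Real.log_mul (by positivity) (by positivity),
    Real.log_pow, Real.log_pow, Real.log_pow, Real.log_pow, hX] at hlogs
  have hlog16 : Real.log 16 = 4 * Real.log 2 := by
    rw [show (16 : ℝ) = 2 ^ 4 by norm_num, Real.log_pow]
    norm_num
  have hdiff : (3 / 32 : ℝ) ≤ Real.log 32 - Real.log 29 := by
    rw [← Real.log_div (by norm_num) (by norm_num)]
    have := Real.one_sub_inv_le_log_of_pos (show (0 : ℝ) < 32 / 29 by norm_num)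
    norm_num at this ⊢
    linarith
  have hb : Real.log ((t : ℝ) + 3) + t * (R * Real.log (t + 3)) + t * (k * (w * Real.log 2)) ≤
      w * Real.log 2 * (1 + t * (k + R)) := by
    have h1 : (t : ℝ) * (R * Real.log (t + 3)) ≤ t * (R * (w * Real.log 2)) :=
      mul_le_mul_of_nonneg_left (mul_le_mul_of_nonneg_left hlogt hR0) ht0
    calc Real.log ((t : ℝ) + 3) + t * (R * Real.log (t + 3)) + t * (k * (w * Real.log 2)) ≤
        w * Real.log 2 + t * (R * (w * Real.log 2)) + t * (k * (w * Real.log 2)) := by linarith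
      _ = w * Real.log 2 * (1 + t * (k + R)) := by ring
  have hb2 : w * Real.log 2 * (1 + t * (k + R)) ≤ w * (0.6931471808 * (1 + 9 / 10 ^ 6 * n)) := by
    rw [mul_assoc]
    apply mul_le_mul_of_nonneg_left _ (by linarith)
    apply mul_le_mul hlog2.le (by linarith) (by positivity) (by norm_num)
  have hcast : ((n * w : ℕ) : ℝ) = n * w := by push_cast; ring
  rw [hcast, hlog16] at hlogs
  have h5 : ((5 : ℕ) : ℝ) = 5 := by norm_num
  rw [h5] at hlogs
  have hc : (n * w : ℝ) * (3 / 32) ≤ (n * w) * (Real.log 32 - Real.log 29) :=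
    mul_le_mul_of_nonneg_left hdiff (by positivity)
  have hmain : (n * w : ℝ) * (3 / 32) ≤ 20 * Real.log 2 +
      5 * (w * (0.6931471808 * (1 + 9 / 10 ^ 6 * n))) := by linarith
  have h6 : 20 * Real.log 2 ≤ 14 * (w : ℝ) := by nlinarith
  have h7 : (w : ℝ) * (n * (3 / 32)) ≤
      w * (14 + 5 * (0.6931471808 * (1 + 9 / 10 ^ 6 * n))) := by
    calc (w : ℝ) * (n * (3 / 32)) = (n * w : ℝ) * (3 / 32) := by ring
      _ ≤ 20 * Real.log 2 + 5 * (w * (0.6931471808 * (1 + 9 / 10 ^ 6 * n))) := hmain
      _ ≤ 14 * (w : ℝ) + 5 * (w * (0.6931471808 * (1 + 9 / 10 ^ 6 * n))) := by linarith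
      _ = _ := by ring
  have h8 := le_of_mul_le_mul_left h7 (by linarith)
  linarith

/-! ### The lower bound -/

theorem lower : ∃ c : ℝ, 0 < c ∧ ∀ (n d k R s : ℕ), 2 ≤ n → 4 * Nat.clog 2 n + 1 ≤ d → 1 ≤ k →
    ∀ μ : PMF (Program n d k R), (∀ P ∈ μ.support, P.size ≤ s) →
      (∀ x : Input n d, IsValid x →
        (2 / 3 : ENNReal) ≤ μ.toOuterMeasure {P | P.CorrectOn x}) →
      c * n ^ 2 / (k * (k + R)) ≤ s := by
  classical
  refine ⟨1 / 10 ^ 6, by norm_num, ?_⟩
  intro n d k R s hn hd hk μ hμ hx
  obtain ⟨code, hcode⟩ := exists_code (n := n) (m := Nat.clog 2 n)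
    (Nat.le_pow_clog (by norm_num) n)
  have hw : 1 ≤ Nat.clog 2 n := Nat.clog_pos (by norm_num) hn
  have hnw : n ≤ 2 ^ Nat.clog 2 n := Nat.le_pow_clog (by norm_num) n
  generalize Nat.clog 2 n = w at hd code hcode hw hnw
  have hd' : 3 * w + 1 + w ≤ d := by omega
  have hcorrect : ∀ (i : Fin n) (b : Fin n → Fin w → Bool) (z : Fin n × Fin w),
      (HasOrthogonalPair (hard d code i b z) ↔ b z.1 z.2 = true) :=
    fun i b z => hard_hasOrthogonalPair hd' code hcode i b z
  obtain ⟨P, hP, herr⟩ := exists_good_program μ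
    (fun τ : Fin n × (Fin n → Fin w → Bool) × (Fin n × Fin w) => hard d code τ.1 τ.2.1 τ.2.2)
    (fun τ => hx _ (hard_valid hd' code hcode _ _ _))
  have hcX : Fintype.card (Fin n → Fin w → Bool) = 2 ^ (n * w) := by
    simp only [Fintype.card_fun, Fintype.card_bool, Fintype.card_fin]
    rw [← pow_mul, mul_comm]
  have hcard : Fintype.card (Fin n × (Fin n → Fin w → Bool) × (Fin n × Fin w)) =
      n * (2 ^ (n * w) * (n * w)) := by
    rw [Fintype.card_prod, Fintype.card_prod, hcX, Fintype.card_prod, Fintype.card_fin,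
      Fintype.card_fin]
  rw [hcard] at herr
  have hPs : P.size ≤ s := hμ P hP
  have hk' : (1 : ℝ) ≤ k := by exact_mod_cast hk
  have hR' : (0 : ℝ) ≤ R := Nat.cast_nonneg R
  rcases Nat.lt_or_ge n 1000 with hlt | hge
  · -- small `n`: the size is at least `1`
    have hs1 : 1 ≤ P.size := by
      by_contra hcon
      have hsz : P.size = 0 := by omega
      obtain ⟨c, hc⟩ : ∃ c, P.start = Sum.inr c := by
        rcases hst : P.start with v | c
        · exact absurd v.2 (by omega)
        · exact ⟨c, rfl⟩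
      have hout : ∀ x b, P.Outputs x b → b = c := by
        rintro x b ⟨t, ht⟩
        rw [hc, P.iterate_step_inr] at ht
        exact (Sum.inr.inj ht).symm
      -- flipping the string maps correct tests to incorrect ones
      let T := Fin n × (Fin n → Fin w → Bool) × (Fin n × Fin w)
      let bad : Finset T := Finset.univ.filter fun τ =>
        ¬ P.CorrectOn (hard d code τ.1 τ.2.1 τ.2.2)
      let flip : T → T := fun τ => (τ.1, (fun j c => !(τ.2.1 j c)), τ.2.2)
      have hflip : Function.Injective flip := by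
        rintro ⟨i, b, z⟩ ⟨i', b', z'⟩ h
        have h1 : i = i' := congrArg Prod.fst h
        have h2 : (fun j c => !(b j c)) = fun j c => !(b' j c) :=
          congrArg (fun y : T => y.2.1) h
        have h3 : z = z' := congrArg (fun y : T => y.2.2) h
        have h4 : b = b' := by
          funext j c
          have := congrFun (congrFun h2 j) c
          simpa using this
        rw [h1, h4, h3]
      have hmap : ∀ τ ∈ badᶜ, flip τ ∈ bad := by
        rintro ⟨i, b, z⟩ hτ
        simp only [bad, Finset.mem_compl, Finset.mem_filter, Finset.mem_univ, true_and,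
          not_not] at hτ
        simp only [bad, flip, Finset.mem_filter, Finset.mem_univ, true_and]
        intro hτ'
        have hb1 : b z.1 z.2 = c := by
          cases hbj : b z.1 z.2
          · exact hout _ _ (hτ.2 (by rw [hcorrect, hbj]; simp))
          · exact hout _ _ (hτ.1 (by rw [hcorrect, hbj]))
        have hb2 : (!(b z.1 z.2)) = c := by
          cases hbj : b z.1 z.2
          · refine hout _ _ (hτ'.1 ?_)
            rw [hcorrect]
            simp [hbj]
          · refine hout _ _ (hτ'.2 ?_)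
            rw [hcorrect]
            simp [hbj]
        rw [hb1] at hb2
        cases c <;> simp at hb2
      have h1 : (badᶜ).card ≤ bad.card :=
        Finset.card_le_card_of_injOn flip hmap hflip.injOn
      have h2 : (badᶜ).card + bad.card = n * (2 ^ (n * w) * (n * w)) := by
        rw [Finset.card_compl_add_card]
        exact hcard
      have h3 : 3 * bad.card ≤ n * (2 ^ (n * w) * (n * w)) := herr
      have h4 : 0 < n * (2 ^ (n * w) * (n * w)) := by
        have : 0 < n := by omega
        positivity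
      omega
    have hs : (1 : ℝ) ≤ s := by exact_mod_cast hs1.trans hPs
    have hn2 : (n : ℝ) ≤ 1000 := by exact_mod_cast hlt.le
    have hn0 : (0 : ℝ) ≤ n := Nat.cast_nonneg n
    have hkR : (1 : ℝ) ≤ k * (k + R) := by nlinarith
    calc (1 / 10 ^ 6 : ℝ) * n ^ 2 / (k * (k + R)) ≤ 1 := by
          rw [div_le_one (by linarith)]
          nlinarith
      _ ≤ s := hs
  · obtain ⟨t, ht1, ht2⟩ := deterministic_bound P code (by omega) hw hcorrect herr
    have := numeric hge hk hw hnw ht1 ht2
    exact this.trans (by exact_mod_cast hPs)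

/-! ### The upper bound -/

open Classical in
/-- The program which tests all pairs of blocks. -/
noncomputable def blocks (n d h q : ℕ) (hn : 1 ≤ n) : Program n d (2 * h) 2 where
  size := q ^ 2
  pos v l := if l.1 < h then (false, ⟨min (v.1 / q * h + l.1) (n - 1), by omega⟩)
    else (true, ⟨min (v.1 % q * h + (l.1 - h)) (n - 1), by omega⟩)
  query _ u := if ∃ l l' : Fin h, ∑ c : Fin d, (u ⟨l.1, by omega⟩ c).toNat *
    (u ⟨h + l'.1, by omega⟩ c).toNat = 0 then 1 else 0
  next v r := if r = 1 then Sum.inr true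
    else if hv : v.1 + 1 < q ^ 2 then Sum.inl ⟨v.1 + 1, hv⟩ else Sum.inr false
  start := if h0 : 0 < q ^ 2 then Sum.inl ⟨0, h0⟩ else Sum.inr false

theorem blocks_value (n d h q : ℕ) (hn : 1 ≤ n) (x : Input n d)
    (v : Fin (blocks n d h q hn).size) : (blocks n d h q hn).value x v = 1 ↔
      ∃ l l' : Fin h, ∑ c : Fin d,
        (x (false, ⟨min (v.1 / q * h + l.1) (n - 1), by omega⟩) c).toNat *
        (x (true, ⟨min (v.1 % q * h + l'.1) (n - 1), by omega⟩) c).toNat = 0 := by
  classical
  have h1 : (blocks n d h q hn).value x v = if ∃ l l' : Fin h, ∑ c : Fin d,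
        (x ((blocks n d h q hn).pos v ⟨l.1, by omega⟩) c).toNat *
        (x ((blocks n d h q hn).pos v ⟨h + l'.1, by omega⟩) c).toNat = 0 then 1 else 0 := rfl
  have h2 : ∀ l : Fin h, (blocks n d h q hn).pos v ⟨l.1, by omega⟩ =
      (false, ⟨min (v.1 / q * h + l.1) (n - 1), by omega⟩) := by
    intro l
    show (if l.1 < h then _ else _) = _
    rw [if_pos l.2]
  have h3 : ∀ l : Fin h, (blocks n d h q hn).pos v ⟨h + l.1, by omega⟩ =
      (true, ⟨min (v.1 % q * h + l.1) (n - 1), by omega⟩) := by
    intro l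
    show (if h + l.1 < h then _ else _) = _
    rw [if_neg (by omega)]
    congr 3
    simp only
    omega
  simp only [h2, h3] at h1
  rw [h1]
  split_ifs with h4
  · exact ⟨fun _ => h4, fun _ => rfl⟩
  · exact ⟨fun h5 => absurd h5 (by decide), fun h5 => absurd h5 h4⟩

theorem blocks_start (n d h q : ℕ) (hn : 1 ≤ n) (h0 : 0 < q ^ 2) :
    (blocks n d h q hn).start = Sum.inl ⟨0, h0⟩ := dif_pos h0

theorem blocks_next_one (n d h q : ℕ) (hn : 1 ≤ n) (v : Fin (blocks n d h q hn).size)
    (r : Fin 2) (hr : r = 1) : (blocks n d h q hn).next v r = Sum.inr true := if_pos hr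

theorem blocks_next_zero (n d h q : ℕ) (hn : 1 ≤ n) (v : Fin (blocks n d h q hn).size)
    (r : Fin 2) (hr : r ≠ 1) (hv : v.1 + 1 < q ^ 2) :
    (blocks n d h q hn).next v r = Sum.inl ⟨v.1 + 1, hv⟩ := (if_neg hr).trans (dif_pos hv)

theorem blocks_next_last (n d h q : ℕ) (hn : 1 ≤ n) (v : Fin (blocks n d h q hn).size)
    (r : Fin 2) (hr : r ≠ 1) (hv : ¬ v.1 + 1 < q ^ 2) :
    (blocks n d h q hn).next v r = Sum.inr false := (if_neg hr).trans (dif_neg hv)

theorem blocks_run (n d h q : ℕ) (hn : 1 ≤ n) (x : Input n d) :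
    ∀ t (ht : t < q ^ 2), (∀ (u : ℕ) (hu : u < q ^ 2), u < t →
      (blocks n d h q hn).value x ⟨u, hu⟩ ≠ 1) →
      ((blocks n d h q hn).step x)^[t] (blocks n d h q hn).start = Sum.inl ⟨t, ht⟩ := by
  intro t
  induction t with
  | zero =>
    intro ht _
    exact blocks_start n d h q hn ht
  | succ t ih =>
    intro ht hu
    rw [Function.iterate_succ_apply', ih (by omega) fun u hu1 hu2 => hu u hu1 (by omega)]
    exact blocks_next_zero n d h q hn ⟨t, _⟩ _ (hu t (by omega) (by omega)) ht

theorem upper (n d h q : ℕ) (hn : 1 ≤ n) (hq : n ≤ q * h) :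
    ∃ P : Program n d (2 * h) 2, P.size = q ^ 2 ∧ ∀ x : Input n d, P.CorrectOn x := by
  classical
  refine ⟨blocks n d h q hn, rfl, fun x => ?_⟩
  have hh : 1 ≤ h := by
    rcases Nat.eq_zero_or_pos h with h0 | h0
    · rw [h0, mul_zero] at hq
      omega
    · exact h0
  have hq1 : 1 ≤ q := by
    rcases Nat.eq_zero_or_pos q with h0 | h0
    · rw [h0, zero_mul] at hq
      omega
    · exact h0
  have hqq : 1 ≤ q ^ 2 := Nat.one_le_pow _ _ hq1
  have key : HasOrthogonalPair x ↔ ∃ (u : ℕ) (hu : u < q ^ 2),
      (blocks n d h q hn).value x ⟨u, hu⟩ = 1 := by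
    constructor
    · rintro ⟨i, j, hij⟩
      have hi : i.1 / h < q := Nat.div_lt_of_lt_mul (lt_of_lt_of_le i.2 (by rw [mul_comm]; exact hq))
      have hj : j.1 / h < q := Nat.div_lt_of_lt_mul (lt_of_lt_of_le j.2 (by rw [mul_comm]; exact hq))
      have hu : i.1 / h * q + j.1 / h < q ^ 2 := by
        calc i.1 / h * q + j.1 / h < i.1 / h * q + q := by omega
          _ = (i.1 / h + 1) * q := by ring
          _ ≤ q * q := Nat.mul_le_mul_right q hi
          _ = q ^ 2 := (sq q).symm
      refine ⟨_, hu, (blocks_value n d h q hn x ⟨_, hu⟩).2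
        ⟨⟨i.1 % h, Nat.mod_lt _ hh⟩, ⟨j.1 % h, Nat.mod_lt _ hh⟩, ?_⟩⟩
      have e1 : (i.1 / h * q + j.1 / h) / q = i.1 / h := by
        rw [Nat.mul_comm, Nat.mul_add_div hq1, Nat.div_eq_of_lt hj, Nat.add_zero]
      have e2 : (i.1 / h * q + j.1 / h) % q = j.1 / h := by
        rw [Nat.mul_comm, Nat.mul_add_mod, Nat.mod_eq_of_lt hj]
      have e3 : (⟨min ((i.1 / h * q + j.1 / h) / q * h + i.1 % h) (n - 1), by omega⟩ : Fin n) =
          i := by
        ext
        simp only [e1, Nat.div_add_mod']
        omega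
      have e4 : (⟨min ((i.1 / h * q + j.1 / h) % q * h + j.1 % h) (n - 1), by omega⟩ : Fin n) =
          j := by
        ext
        simp only [e2, Nat.div_add_mod']
        omega
      simp only [e3, e4]
      exact hij
    · rintro ⟨u, hu, hv⟩
      obtain ⟨l, l', h1⟩ := (blocks_value n d h q hn x ⟨u, hu⟩).1 hv
      exact ⟨_, _, h1⟩
  constructor
  · intro hx
    have hex := key.1 hx
    obtain ⟨hu, hv⟩ := Nat.find_spec hex
    refine ⟨Nat.find hex + 1, ?_⟩
    rw [Function.iterate_succ_apply', blocks_run n d h q hn x (Nat.find hex) hu]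
    · exact blocks_next_one n d h q hn ⟨Nat.find hex, hu⟩ _ hv
    · intro u hu1 hu2 hu3
      exact Nat.find_min hex hu2 ⟨hu1, hu3⟩
  · intro hx
    have hno : ∀ (u : ℕ) (hu : u < q ^ 2), (blocks n d h q hn).value x ⟨u, hu⟩ ≠ 1 :=
      fun u hu hv => hx (key.2 ⟨u, hu, hv⟩)
    refine ⟨q ^ 2 - 1 + 1, ?_⟩
    rw [Function.iterate_succ_apply', blocks_run n d h q hn x (q ^ 2 - 1) (by omega)
      fun u hu _ => hno u hu]
    exact blocks_next_last n d h q hn ⟨q ^ 2 - 1, _⟩ _ (hno _ _) (by simp only; omega)

/-! ### The result -/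

/-- The optimal size of randomized branching programs for Orthogonal Vectors whose nodes look at
`k` vectors. -/
theorem result :
    (∃ c : ℝ, 0 < c ∧ ∀ (n d k R s : ℕ), 2 ≤ n → 4 * Nat.clog 2 n + 1 ≤ d → 1 ≤ k →
      ∀ μ : PMF (Program n d k R), (∀ P ∈ μ.support, P.size ≤ s) →
        (∀ x : Input n d, IsValid x →
          (2 / 3 : ENNReal) ≤ μ.toOuterMeasure {P | P.CorrectOn x}) →
        c * n ^ 2 / (k * (k + R)) ≤ s) ∧
    (∀ n d h q : ℕ, 1 ≤ n → n ≤ q * h →
      ∃ P : Program n d (2 * h) 2, P.size = q ^ 2 ∧ ∀ x : Input n d, P.CorrectOn x) :=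
  ⟨lower, upper⟩

end Pool.Agent.H22.OVH.BlockBranching
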